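import Mathlib
import Pool.Agent.Helper292.ForceCH

/-!
If the dominating number is aleph_1 (in particular under CH), then there is a strongly L-selective
Hausdorff space which is not Q-selective.
-/

namespace Pool.Agent.Results.MP_7fd7ea_gt.StronglyLNotQ

open Filter Topology Set
open Pool.Agent.Helper292.ForceCH (Om countable_Iio)

/-- Lower semicontinuity of a set-valued map. -/
def Lsc {Y X : Type} [TopologicalSpace Y] [TopologicalSpace X] (φ : Y → Set X) : Prop :=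
  ∀ U : Set X, IsOpen U → IsOpen {y | (φ y ∩ U).Nonempty}

/-- `X` is `Y`-selective. -/
def Selective (Y X : Type) [TopologicalSpace Y] [TopologicalSpace X] : Prop :=
  ∀ φ : Y → Set X, Lsc φ → (∀ y, IsClosed (φ y) ∧ (φ y).Nonempty) →
    ∃ f : Y → X, Continuous f ∧ ∀ y, f y ∈ φ y

/-- `X` is strongly `Y`-selective. -/
def StronglySelective (Y X : Type) [TopologicalSpace Y] [TopologicalSpace X] : Prop :=
  ∀ φ : Y → Set X, Lsc φ → (∀ y, (φ y).Nonempty) →
    ∃ f : Y → X, Continuous f ∧ ∀ y, f y ∈ φ y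

lemma exists_ev_ub {ι : Type} (s : Set ι) (hs : s.Countable) (F : ι → ℕ → ℕ) :
    ∃ G : ℕ → ℕ, ∀ i ∈ s, ∀ᶠ n in atTop, F i n ≤ G n := by
  rcases s.eq_empty_or_nonempty with h | h
  · exact ⟨fun _ => 0, by simp [h]⟩
  · obtain ⟨e, he⟩ := hs.exists_eq_range h
    refine ⟨fun n => ∑ i ∈ Finset.range (n + 1), F (e i) n, ?_⟩
    intro i hi
    rw [he] at hi
    obtain ⟨j, rfl⟩ := hi
    filter_upwards [eventually_ge_atTop j] with n hn
    exact Finset.single_le_sum (f := fun i => F (e i) n) (fun _ _ => Nat.zero_le _)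
      (Finset.mem_range.2 (by omega))

lemma exists_scale (g : Om → ℕ → ℕ) :
    ∃ h : Om → ℕ → ℕ, ∀ a, (∀ b, b < a → ∀ᶠ n in atTop, h b n ≤ h a n) ∧ ∀ n, g a n ≤ h a n := by
  classical
  let step : ∀ a : Om, (∀ b, b < a → ℕ → ℕ) → ℕ → ℕ := fun a ih n =>
    Classical.choose (exists_ev_ub (ι := {b : Om // b < a}) univ
      (by
        have : Countable {b : Om // b < a} := countable_Iio a
        exact Set.countable_univ)
      (fun b => ih b.1 b.2)) n + g a n
  let h : Om → ℕ → ℕ := (wellFounded_lt (α := Om)).fix step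
  have hh : ∀ a, h a = step a (fun b _ => h b) := fun a => WellFounded.fix_eq _ _ _
  refine ⟨h, fun a => ⟨fun b hb => ?_, fun n => ?_⟩⟩
  · have hsp := Classical.choose_spec (exists_ev_ub (ι := {b : Om // b < a}) univ
      (by
        have : Countable {b : Om // b < a} := countable_Iio a
        exact Set.countable_univ)
      (fun b => h b.1)) ⟨b, hb⟩ (mem_univ _)
    filter_upwards [hsp] with n hn
    rw [hh a]
    exact le_trans hn (Nat.le_add_right _ _)
  · rw [hh a]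
    exact Nat.le_add_left _ _

lemma exists_ub (s : Set Om) (hs : s.Countable) : ∃ b, ∀ a ∈ s, a < b := by
  by_contra hcon
  push Not at hcon
  have huniv : (univ : Set Om) ⊆ ⋃ a ∈ s, Iic a := by
    intro b _
    obtain ⟨a, ha, hab⟩ := hcon b
    exact mem_biUnion ha hab
  have hc : (⋃ a ∈ s, Iic a).Countable := hs.biUnion (fun a _ => by
    have : Iic a = insert a (Iio a) := by
      ext x; simp [le_iff_eq_or_lt]
    rw [this]
    exact Set.Countable.insert _ (Set.countable_coe_iff.1 (countable_Iio a)))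
  have hu : (univ : Set Om).Countable := hc.mono huniv
  have h1 : Cardinal.mk Om ≤ Cardinal.aleph0 := by
    have := Set.countable_univ_iff.1 hu
    exact Cardinal.mk_le_aleph0
  have h2 : Cardinal.mk Om = Cardinal.aleph 1 := by
    simp [Om]
  rw [h2] at h1
  exact absurd h1 (not_le.2 Cardinal.aleph0_lt_aleph_one)

lemma diag {X : Type} [Nonempty X] (C S : ℕ → Set X) (hS : Antitone S)
    (h : ∀ n, ∀ᶠ j in atTop, (C j ∩ S n).Nonempty) :
    ∃ c : ℕ → X, (∀ᶠ j in atTop, c j ∈ C j) ∧ ∀ n, ∀ᶠ j in atTop, c j ∈ S n := by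
  classical
  let N : ℕ → ℕ := fun j => Nat.findGreatest (fun n => (C j ∩ S n).Nonempty) j
  let c : ℕ → X := fun j =>
    if hj : (C j ∩ S (N j)).Nonempty then hj.some else Classical.arbitrary X
  have key : ∀ n j, n ≤ j → (C j ∩ S n).Nonempty → c j ∈ C j ∧ c j ∈ S n := by
    intro n j hnj hne
    have h1 : (C j ∩ S (N j)).Nonempty :=
      Nat.findGreatest_spec (P := fun n => (C j ∩ S n).Nonempty) hnj hne
    have h2 : n ≤ N j := Nat.le_findGreatest hnj hne
    have h3 : c j ∈ C j ∩ S (N j) := by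
      simp only [c, dif_pos h1]
      exact h1.some_mem
    exact ⟨h3.1, hS h2 h3.2⟩
  refine ⟨c, ?_, ?_⟩
  · filter_upwards [h 0] with j hj
    exact (key 0 j (Nat.zero_le _) hj).1
  · intro n
    filter_upwards [h n, eventually_ge_atTop n] with j hj hnj
    exact (key n j hnj hj).2

/-- The points of the space. -/
abbrev Pt : Type := Option (ℕ × ℕ × Om)

section
variable (h : Om → ℕ → ℕ)

/-- The basic neighbourhoods of the point `none`. -/
def nb (n : ℕ) (B : Finset Om) : Set Pt :=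
  {x | x = none ∨ ∃ m k a, x = some (m, k, a) ∧ n ≤ m ∧ ∀ b ∈ B, ¬ (a < b ∧ h b m ≤ k)}

/-- All points but `none` are isolated; the sets `nb h n B` are a base at `none`. -/
def topo : TopologicalSpace Pt where
  IsOpen U := none ∈ U → ∃ n B, nb h n B ⊆ U
  isOpen_univ := fun _ => ⟨0, ∅, subset_univ _⟩
  isOpen_inter := by
    classical
    intro U V hU hV hUV
    obtain ⟨n, B, h1⟩ := hU hUV.1
    obtain ⟨n', B', h2⟩ := hV hUV.2
    refine ⟨max n n', B ∪ B', fun x hx => ⟨h1 ?_, h2 ?_⟩⟩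
    · rcases hx with rfl | ⟨m, k, a, rfl, hm, hb⟩
      · exact Or.inl rfl
      · exact Or.inr ⟨m, k, a, rfl, le_trans (le_max_left _ _) hm,
          fun b hbB => hb b (Finset.mem_union_left _ hbB)⟩
    · rcases hx with rfl | ⟨m, k, a, rfl, hm, hb⟩
      · exact Or.inl rfl
      · exact Or.inr ⟨m, k, a, rfl, le_trans (le_max_right _ _) hm,
          fun b hbB => hb b (Finset.mem_union_right _ hbB)⟩
  isOpen_sUnion := by
    intro 𝒰 hall hn
    obtain ⟨U, hU, hnU⟩ := hn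
    obtain ⟨n, B, h1⟩ := hall U hU hnU
    exact ⟨n, B, h1.trans (subset_sUnion_of_mem hU)⟩

lemma isOpen_iff (U : Set Pt) : IsOpen[topo h] U ↔ (none ∈ U → ∃ n B, nb h n B ⊆ U) := Iff.rfl

lemma isOpen_nb (n : ℕ) (B : Finset Om) : IsOpen[topo h] (nb h n B) :=
  fun _ => ⟨n, B, subset_rfl⟩

lemma isOpen_some (p : ℕ × ℕ × Om) : IsOpen[topo h] ({some p} : Set Pt) := by
  intro hn
  simp at hn

lemma nb_anti (B : Finset Om) : Antitone (fun n => nb h n B) := by
  intro n n' hnn x hx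
  rcases hx with rfl | ⟨m, k, a, rfl, hm, hb⟩
  · exact Or.inl rfl
  · exact Or.inr ⟨m, k, a, rfl, le_trans hnn hm, hb⟩

lemma t2 : @T2Space Pt (topo h) := by
  letI := topo h
  have key : ∀ (p : ℕ × ℕ × Om), ∃ u v : Set Pt, IsOpen u ∧ IsOpen v ∧ some p ∈ u ∧ none ∈ v ∧
      Disjoint u v := by
    intro p
    refine ⟨{some p}, nb h (p.1 + 1) ∅, isOpen_some h p, isOpen_nb h _ _, rfl, Or.inl rfl, ?_⟩
    rw [Set.disjoint_left]
    rintro x hx hx'
    rw [mem_singleton_iff] at hx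
    subst hx
    rcases hx' with h0 | ⟨m, k, a, h1, h2, -⟩
    · simp at h0
    · have : p = (m, k, a) := by simpa using h1
      subst this
      simp at h2
  refine ⟨fun x y hxy => ?_⟩
  rcases x with _ | p
  · rcases y with _ | q
    · exact absurd rfl hxy
    · obtain ⟨u, v, hu, hv, h1, h2, h3⟩ := key q
      exact ⟨v, u, hv, hu, h2, h1, h3.symm⟩
  · rcases y with _ | q
    · exact key p
    · refine ⟨{some p}, {some q}, isOpen_some h p, isOpen_some h q, rfl, rfl, ?_⟩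
      rw [Set.disjoint_left]
      rintro z hz hz'
      rw [mem_singleton_iff] at hz hz'
      exact hxy (hz.symm.trans hz')

end

/-- Domination of a sequence whose rows tend to infinity. -/
lemma dom (h : Om → ℕ → ℕ) (hd : ∀ f : ℕ → ℕ, ∃ a, ∀ᶠ n in atTop, f n ≤ h a n) (B : Finset Om)
    (c : ℕ → Pt) (hc : ∀ n, ∀ᶠ j in atTop, c j ∈ nb h n B) :
    ∃ δ : Om, ∀ᶠ j in atTop, ∀ m k a, c j = some (m, k, a) → k < h δ m := by
  classical
  have hJ : ∀ m, ∃ J, ∀ j, J ≤ j → c j ∈ nb h (m + 1) B := fun m => eventually_atTop.1 (hc (m + 1))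
  choose J hJ using hJ
  let kk : Pt → ℕ := fun x => (x.map (fun p => p.2.1)).getD 0
  obtain ⟨δ, hδ⟩ := hd (fun m => ∑ j ∈ Finset.range (J m), (kk (c j) + 1))
  obtain ⟨N, hN⟩ := eventually_atTop.1 hδ
  refine ⟨δ, ?_⟩
  filter_upwards [hc N] with j hj m k a hjm
  have hmN : N ≤ m := by
    rcases hj with h0 | ⟨m', k', a', h1, h2, -⟩
    · rw [h0] at hjm; simp at hjm
    · rw [h1] at hjm
      simp only [Option.some.injEq, Prod.mk.injEq] at hjm
      omega
  have hjJ : j < J m := by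
    by_contra hcon
    have := hJ m j (not_lt.1 hcon)
    rcases this with h0 | ⟨m', k', a', h1, h2, -⟩
    · rw [h0] at hjm; simp at hjm
    · rw [h1] at hjm
      simp only [Option.some.injEq, Prod.mk.injEq] at hjm
      omega
  have hk : kk (c j) = k := by simp [kk, hjm]
  have h3 : kk (c j) + 1 ≤ ∑ j ∈ Finset.range (J m), (kk (c j) + 1) :=
    Finset.single_le_sum (f := fun j => kk (c j) + 1) (fun _ _ => Nat.zero_le _)
      (Finset.mem_range.2 hjJ)
  have h4 := hN m hmN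
  omega

/-- Closure ordinals. -/
lemma closure_pt (D : Finset Om → Om) :
    ∃ δ : Om, ∀ B : Finset Om, (∀ b ∈ B, b < δ) → D B ≤ δ := by
  classical
  have hstep : ∀ x : Om, ∃ y, x < y ∧ ∀ B : Finset Om, (∀ b ∈ B, b ≤ x) → D B ≤ y := by
    intro x
    have hcx : Countable (Iic x) := by
      have h1 : Iic x = insert x (Iio x) := by
        ext z; simp [le_iff_eq_or_lt]
      rw [h1]
      exact Set.countable_coe_iff.2
        (Set.Countable.insert _ (Set.countable_coe_iff.1 (countable_Iio x)))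
    obtain ⟨y, hy⟩ := exists_ub
      (insert x (range (fun B : Finset (Iic x) => D (B.map (Function.Embedding.subtype _)))))
      ((countable_range _).insert x)
    refine ⟨y, hy x (mem_insert _ _), fun B hB => ?_⟩
    have h2 : (B.subtype (fun b => b ≤ x)).map (Function.Embedding.subtype _) = B :=
      Finset.subtype_map_of_mem hB
    have h3 := hy (D B) (mem_insert_of_mem _ ⟨B.subtype (fun b => b ≤ x), by
      show D ((B.subtype (fun b => b ≤ x)).map (Function.Embedding.subtype _)) = D B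
      rw [h2]⟩)
    exact h3.le
  choose nx hnx1 hnx2 using hstep
  let d : ℕ → Om := fun n => nx^[n] (D ∅)
  have hd1 : ∀ n, d (n + 1) = nx (d n) := fun n => Function.iterate_succ_apply' nx n _
  have hmono : Monotone d := monotone_nat_of_le_succ (fun n => by rw [hd1]; exact (hnx1 _).le)
  obtain ⟨u, hu⟩ := exists_ub (range d) (countable_range d)
  have hne : {δ : Om | ∀ n, d n ≤ δ}.Nonempty := ⟨u, fun n => (hu _ ⟨n, rfl⟩).le⟩
  let δ := (wellFounded_lt (α := Om)).min {δ : Om | ∀ n, d n ≤ δ} hne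
  have hδ : ∀ n, d n ≤ δ := (wellFounded_lt (α := Om)).min_mem _ hne
  have hlt : ∀ b, b < δ → ∃ n, b < d n := by
    intro b hb
    by_contra hcon
    push Not at hcon
    have hcon' : b ∈ {δ : Om | ∀ n, d n ≤ δ} := hcon
    exact (wellFounded_lt (α := Om)).not_lt_min _ hcon' hb
  refine ⟨δ, fun B hB => ?_⟩
  have hex : ∃ n, ∀ b ∈ B, b ≤ d n := by
    induction B using Finset.induction_on with
    | empty => exact ⟨0, by simp⟩
    | insert b B _ ih =>
      obtain ⟨n, hn⟩ := ih (fun b' hb' => hB b' (Finset.mem_insert_of_mem hb'))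
      obtain ⟨n', hn'⟩ := hlt b (hB b (Finset.mem_insert_self _ _))
      refine ⟨max n n', fun b' hb' => ?_⟩
      rcases Finset.mem_insert.1 hb' with rfl | hb'
      · exact hn'.le.trans (hmono (le_max_right _ _))
      · exact (hn b' hb').trans (hmono (le_max_left _ _))
  obtain ⟨n, hn⟩ := hex
  have := hnx2 (d n) B hn
  rw [← hd1] at this
  exact this.trans (hδ _)

/-- The main selection lemma at the point `none`. -/
lemma main (h : Om → ℕ → ℕ) (hm : ∀ a b, b < a → ∀ᶠ n in atTop, h b n ≤ h a n)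
    (hd : ∀ f : ℕ → ℕ, ∃ a, ∀ᶠ n in atTop, f n ≤ h a n) (C : ℕ → Set Pt)
    (hC : ∀ n B, ∀ᶠ j in atTop, (C j ∩ nb h n B).Nonempty) :
    ∃ c : ℕ → Pt, (∀ᶠ j in atTop, c j ∈ C j) ∧ ∀ n B, ∀ᶠ j in atTop, c j ∈ nb h n B := by
  classical
  have h1 : ∀ B : Finset Om, ∃ c : ℕ → Pt, (∀ᶠ j in atTop, c j ∈ C j) ∧
      ∀ n, ∀ᶠ j in atTop, c j ∈ nb h n B := fun B =>
    diag C (fun n => nb h n B) (nb_anti h B) (fun n => hC n B)
  choose cB hcB1 hcB2 using h1
  have h2 : ∀ B : Finset Om, ∃ δ : Om, ∀ᶠ j in atTop, ∀ m k a,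
      cB B j = some (m, k, a) → k < h δ m := fun B => dom h hd B (cB B) (hcB2 B)
  choose D hD using h2
  obtain ⟨δ, hδ⟩ := closure_pt D
  have hle : ∀ a b, b ≤ a → ∀ᶠ n in atTop, h b n ≤ h a n := by
    intro a b hab
    rcases hab.eq_or_lt with rfl | hlt
    · exact Eventually.of_forall (fun _ => le_rfl)
    · exact hm a b hlt
  obtain ⟨f, hf⟩ := Set.countable_iff_exists_injOn.1 (Set.countable_coe_iff.1 (countable_Iio δ))
  have hfin : ∀ i : ℕ, {b : Om | b < δ ∧ f b < i}.Finite := by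
    intro i
    refine Set.Finite.of_finite_image (f := f) ((Set.finite_Iio i).subset ?_) ?_
    · rintro _ ⟨b, hb, rfl⟩
      exact hb.2
    · intro b hb b' hb' hbb
      exact hf hb.1 hb'.1 hbb
  let S : ℕ → Set Pt := fun i => {x | x = none ∨ ∃ m k a, x = some (m, k, a) ∧ i ≤ m ∧
    (∀ b, b < δ → f b < i → ¬ (a < b ∧ h b m ≤ k)) ∧ k < h δ m}
  have hS : Antitone S := by
    intro i i' hii x hx
    rcases hx with rfl | ⟨m, k, a, rfl, h3, h4, h5⟩
    · exact Or.inl rfl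
    · exact Or.inr ⟨m, k, a, rfl, hii.trans h3, fun b hb hfb => h4 b hb (hfb.trans_le hii), h5⟩
  have hCS : ∀ i, ∀ᶠ j in atTop, (C j ∩ S i).Nonempty := by
    intro i
    have hB : ∀ b ∈ (hfin i).toFinset, b < δ := fun b hb => ((hfin i).mem_toFinset.1 hb).1
    obtain ⟨N, hN⟩ := eventually_atTop.1 (hle δ _ (hδ (hfin i).toFinset hB))
    filter_upwards [hcB1 (hfin i).toFinset, hcB2 (hfin i).toFinset (max i N),
      hD (hfin i).toFinset] with j h3 h4 h5
    refine ⟨cB (hfin i).toFinset j, h3, ?_⟩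
    rcases h4 with h0 | ⟨m, k, a, h6, h7, h8⟩
    · exact Or.inl h0
    · refine Or.inr ⟨m, k, a, h6, (le_max_left _ _).trans h7, fun b hb hfb => ?_, ?_⟩
      · exact h8 b ((hfin i).mem_toFinset.2 ⟨hb, hfb⟩)
      · exact (h5 m k a h6).trans_le (hN m ((le_max_right _ _).trans h7))
  obtain ⟨c, hc1, hc2⟩ := diag C S hS hCS
  refine ⟨c, hc1, fun n B => ?_⟩
  have hb : ∀ b ∈ B, ∃ M : ℕ, ∀ x ∈ S M, ∀ m k a, x = some (m, k, a) → ¬ (a < b ∧ h b m ≤ k) := by
    intro b _
    by_cases hbδ : b < δ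
    · refine ⟨f b + 1, fun x hx m k a hxm => ?_⟩
      rcases hx with rfl | ⟨m', k', a', rfl, -, h4, -⟩
      · simp at hxm
      · simp only [Option.some.injEq, Prod.mk.injEq] at hxm
        obtain ⟨rfl, rfl, rfl⟩ := hxm
        exact h4 b hbδ (Nat.lt_succ_self _)
    · obtain ⟨M, hM⟩ := eventually_atTop.1 (hle b δ (not_lt.1 hbδ))
      refine ⟨M, fun x hx m k a hxm => ?_⟩
      rcases hx with rfl | ⟨m', k', a', rfl, h3, -, h5⟩
      · simp at hxm
      · simp only [Option.some.injEq, Prod.mk.injEq] at hxm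
        obtain ⟨rfl, rfl, rfl⟩ := hxm
        rintro ⟨-, h6⟩
        have := hM m' h3
        omega
  have hb' : ∀ᶠ j in atTop, ∀ b ∈ B, ∀ m k a, c j = some (m, k, a) → ¬ (a < b ∧ h b m ≤ k) := by
    rw [Filter.eventually_all_finset]
    intro b hbB
    obtain ⟨M, hM⟩ := hb b hbB
    filter_upwards [hc2 M] with j hj
    exact hM _ hj
  filter_upwards [hb', hc2 n] with j h3 h4
  rcases h4 with h0 | ⟨m, k, a, h5, h6, -, -⟩
  · exact Or.inl h0
  · exact Or.inr ⟨m, k, a, h5, h6, fun b hbB => h3 b hbB m k a h5⟩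

lemma stronglyL (h : Om → ℕ → ℕ) (hm : ∀ a b, b < a → ∀ᶠ n in atTop, h b n ≤ h a n)
    (hd : ∀ f : ℕ → ℕ, ∃ a, ∀ᶠ n in atTop, f n ≤ h a n) :
    @StronglySelective (OnePoint ℕ) Pt _ (topo h) := by
  classical
  letI := topo h
  intro φ hφ hne
  have hcoe : Tendsto (fun x : ℕ => (x : OnePoint ℕ)) atTop (𝓝 (OnePoint.infty : OnePoint ℕ)) :=
    (OnePoint.continuous_iff_from_nat id).1 continuous_id
  have hev : ∀ U : Set Pt, IsOpen U → (φ OnePoint.infty ∩ U).Nonempty →
      ∀ᶠ j : ℕ in atTop, (φ (j : OnePoint ℕ) ∩ U).Nonempty := by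
    intro U hU hmem
    exact hcoe.eventually ((hφ U hU).mem_nhds hmem)
  have hfin : ∃ y ∈ φ OnePoint.infty, ∃ c : ℕ → Pt, (∀ᶠ j : ℕ in atTop, c j ∈ φ (j : OnePoint ℕ)) ∧
      Tendsto c atTop (𝓝 y) := by
    obtain ⟨y, hy⟩ := hne OnePoint.infty
    rcases y with _ | p
    · obtain ⟨c, hc1, hc2⟩ := main h hm hd (fun j => φ (j : OnePoint ℕ)) (fun n B =>
        hev _ (isOpen_nb h n B) ⟨none, hy, Or.inl rfl⟩)
      refine ⟨none, hy, c, hc1, ?_⟩
      rw [tendsto_nhds]
      intro U hU hnU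
      obtain ⟨n, B, hB⟩ := hU hnU
      filter_upwards [hc2 n B] with j hj
      exact hB hj
    · refine ⟨some p, hy, fun _ => some p, ?_, tendsto_const_nhds⟩
      filter_upwards [hev {some p} (isOpen_some h p) ⟨some p, hy, rfl⟩] with j hj
      obtain ⟨x, hx, hxp⟩ := hj
      rw [mem_singleton_iff] at hxp
      subst hxp
      exact hx
  obtain ⟨y, hy, c, hc1, hc2⟩ := hfin
  let c' : ℕ → Pt := fun j => if c j ∈ φ (j : OnePoint ℕ) then c j else (hne (j : OnePoint ℕ)).some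
  have hc' : c' =ᶠ[atTop] c := by
    filter_upwards [hc1] with j hj
    simp only [c', if_pos hj]
  have hc'2 : Tendsto c' atTop (𝓝 y) := hc2.congr' hc'.symm
  let f : OnePoint ℕ → Pt := fun z => Option.elim z y c'
  refine ⟨f, ?_, ?_⟩
  · rw [OnePoint.continuous_iff_from_nat]
    exact hc'2
  · intro z
    induction z using OnePoint.rec with
    | infty => exact hy
    | coe j =>
      show c' j ∈ φ (j : OnePoint ℕ)
      by_cases hj : c j ∈ φ (j : OnePoint ℕ)
      · simp only [c', if_pos hj]; exact hj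
      · simp only [c', if_neg hj]; exact (hne (j : OnePoint ℕ)).some_mem

/-- Irrational cut points. -/
noncomputable def r (m : ℕ) : ℝ := √2 / (m + 1)

lemma r_pos (m : ℕ) : 0 < r m := by unfold r; positivity

lemma r_anti : Antitone r := by
  intro m n hmn
  unfold r
  have : (m : ℝ) ≤ n := by exact_mod_cast hmn
  gcongr

lemma r_zero : r 0 = √2 := by simp [r]

/-- The set-valued map on the rationals. -/
def phi (q : ℚ) : Set Pt :=
  {x | ((q : ℝ) ≤ 0 ∧ x = none) ∨ √2 < (q : ℝ) ∨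
    ∃ m k a, x = some (m, k, a) ∧ r (m + 1) < q ∧ (q : ℝ) < r m - 1 / (k + 1)}

lemma exists_row (n : ℕ) (q : ℚ) (hq : (0 : ℝ) < q) (hqn : (q : ℝ) < r n) :
    ∃ m k : ℕ, n ≤ m ∧ r (m + 1) < q ∧ (q : ℝ) < r m - 1 / (k + 1) := by
  have hn1 : (0 : ℝ) < n + 1 := by positivity
  have ht : (n : ℝ) + 1 < √2 / q := by
    rw [lt_div_iff₀ hq]
    unfold r at hqn
    rw [lt_div_iff₀ hn1] at hqn
    linarith
  have hN : n + 1 ≤ ⌊√2 / (q : ℝ)⌋₊ := Nat.le_floor (by push_cast; exact ht.le)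
  obtain ⟨m, hm⟩ : ∃ m, ⌊√2 / (q : ℝ)⌋₊ = m + 1 := ⟨⌊√2 / (q : ℝ)⌋₊ - 1, by omega⟩
  have h1 : ((m : ℝ) + 1) ≤ √2 / q := by
    have := Nat.floor_le (a := √2 / (q : ℝ)) (by positivity)
    rw [hm] at this
    push_cast at this
    exact this
  have h2 : √2 / q < (m : ℝ) + 1 + 1 := by
    have := Nat.lt_floor_add_one (√2 / (q : ℝ))
    rw [hm] at this
    push_cast at this
    exact this
  have h3 : ((m : ℝ) + 1) ≠ √2 / q := by
    intro heq
    apply irrational_sqrt_two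
    refine ⟨((m : ℚ) + 1) * q, ?_⟩
    push_cast
    rw [heq]
    field_simp
  have h4 : (m : ℝ) + 1 < √2 / q := lt_of_le_of_ne h1 h3
  have hqm : (q : ℝ) < r m := by
    unfold r
    rw [lt_div_iff₀ (by positivity)]
    rw [lt_div_iff₀ hq] at h4
    linarith
  obtain ⟨k, hk⟩ := exists_nat_one_div_lt (sub_pos.2 hqm)
  refine ⟨m, k, by omega, ?_, by linarith⟩
  unfold r
  push_cast
  rw [div_lt_iff₀ (by positivity)]
  rw [div_lt_iff₀ hq] at h2
  linarith

lemma phi_closed (h : Om → ℕ → ℕ) (q : ℚ) : @IsClosed Pt (topo h) (phi q) := by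
  letI := topo h
  rw [← isOpen_compl_iff]
  intro hn
  have hn' : none ∉ phi q := hn
  have hq0 : (0 : ℝ) < q := by
    by_contra hcon
    exact hn' (Or.inl ⟨not_lt.1 hcon, rfl⟩)
  have hq2 : ¬ √2 < (q : ℝ) := fun hcon => hn' (Or.inr (Or.inl hcon))
  obtain ⟨n, hnq⟩ := exists_nat_gt (√2 / (q : ℝ))
  refine ⟨n, ∅, ?_⟩
  rintro x (rfl | ⟨m, k, a, rfl, hm, -⟩)
  · exact hn
  · intro hx
    rcases hx with ⟨h1, -⟩ | h1 | ⟨m', k', a', h1, h2, h3⟩
    · linarith
    · exact hq2 h1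
    · simp only [Option.some.injEq, Prod.mk.injEq] at h1
      obtain ⟨rfl, rfl, rfl⟩ := h1
      have h4 : r m ≤ r n := r_anti hm
      have h5 : r n < q := by
        unfold r
        rw [div_lt_iff₀ (by positivity)]
        rw [div_lt_iff₀ hq0] at hnq
        linarith
      have h6 : (0 : ℝ) < 1 / ((k : ℝ) + 1) := by positivity
      linarith

lemma phi_nonempty (q : ℚ) : (phi q).Nonempty := by
  obtain ⟨a, -⟩ := exists_ub ∅ Set.countable_empty
  rcases le_or_gt (q : ℝ) 0 with h0 | h0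
  · exact ⟨none, Or.inl ⟨h0, rfl⟩⟩
  · rcases lt_trichotomy (q : ℝ) (√2) with h1 | h1 | h1
    · obtain ⟨m, k, -, h2, h3⟩ := exists_row 0 q h0 (by rw [r_zero]; exact h1)
      exact ⟨some (m, k, a), Or.inr (Or.inr ⟨m, k, a, rfl, h2, h3⟩)⟩
    · exact absurd ⟨q, h1⟩ irrational_sqrt_two
    · exact ⟨none, Or.inr (Or.inl h1)⟩

lemma phi_lsc (h : Om → ℕ → ℕ) : @Lsc ℚ Pt _ (topo h) phi := by
  classical
  letI := topo h
  intro U hU
  rw [isOpen_iff_mem_nhds]
  rintro q ⟨x, hx, hxU⟩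
  have hlt : ∀ c : ℝ, (q : ℝ) < c → ∀ᶠ p : ℚ in 𝓝 q, (p : ℝ) < c := fun c hc =>
    (isOpen_lt Rat.continuous_coe_real continuous_const).mem_nhds hc
  have hgt : ∀ c : ℝ, c < (q : ℝ) → ∀ᶠ p : ℚ in 𝓝 q, c < (p : ℝ) := fun c hc =>
    (isOpen_lt continuous_const Rat.continuous_coe_real).mem_nhds hc
  rcases hx with ⟨h0, rfl⟩ | h1 | ⟨m, k, a, rfl, h2, h3⟩
  · obtain ⟨n, B, hB⟩ := hU hxU
    obtain ⟨a, ha⟩ := exists_ub (B : Set Om) B.countable_toSet
    filter_upwards [hlt (r n) (h0.trans_lt (r_pos n))] with p hp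
    rcases le_or_gt (p : ℝ) 0 with hp0 | hp0
    · exact ⟨none, Or.inl ⟨hp0, rfl⟩, hxU⟩
    · obtain ⟨m, k, hnm, h4, h5⟩ := exists_row n p hp0 hp
      refine ⟨some (m, k, a), Or.inr (Or.inr ⟨m, k, a, rfl, h4, h5⟩), hB ?_⟩
      refine Or.inr ⟨m, k, a, rfl, hnm, fun b hb hab => ?_⟩
      exact absurd hab.1 (not_lt.2 (ha b hb).le)
  · filter_upwards [hgt _ h1] with p hp
    exact ⟨x, Or.inr (Or.inl hp), hxU⟩
  · filter_upwards [hgt _ h2, hlt _ h3] with p hp hp'
    exact ⟨some (m, k, a), Or.inr (Or.inr ⟨m, k, a, rfl, hp, hp'⟩), hxU⟩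

lemma not_selective (h : Om → ℕ → ℕ) : ¬ @Selective ℚ Pt _ (topo h) := by
  classical
  letI := topo h
  intro hsel
  obtain ⟨f, hf, hfphi⟩ := hsel phi (phi_lsc h) (fun q => ⟨phi_closed h q, phi_nonempty q⟩)
  have h0 : f 0 = none := by
    rcases hfphi 0 with ⟨-, h1⟩ | h1 | ⟨m, k, a, -, h2, -⟩
    · exact h1
    · have : (0 : ℝ) ≤ √2 := Real.sqrt_nonneg 2
      simp at h1
      linarith
    · have := r_pos (m + 1)
      simp at h2
      linarith
  have hc : {a : Om | ∃ (q : ℚ) (m k : ℕ), f q = some (m, k, a)}.Countable := by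
    have : {a : Om | ∃ (q : ℚ) (m k : ℕ), f q = some (m, k, a)} ⊆
        ⋃ q : ℚ, {a : Om | ∃ (m k : ℕ), f q = some (m, k, a)} := by
      rintro a ⟨q, m, k, hq⟩
      exact mem_iUnion.2 ⟨q, m, k, hq⟩
    refine (Set.countable_iUnion (fun q => ?_)).mono this
    refine Set.Subsingleton.countable ?_
    rintro a ⟨m, k, h1⟩ a' ⟨m', k', h2⟩
    rw [h1] at h2
    simp only [Option.some.injEq, Prod.mk.injEq] at h2
    exact h2.2.2
  obtain ⟨b, hb⟩ := exists_ub _ hc
  have hopen : IsOpen (f ⁻¹' (nb h 0 {b})) := (isOpen_nb h 0 {b}).preimage hf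
  have hmem : (0 : ℚ) ∈ f ⁻¹' (nb h 0 {b}) := by
    show f 0 ∈ nb h 0 {b}
    rw [h0]
    exact Or.inl rfl
  obtain ⟨ε, hε, hball⟩ := Metric.isOpen_iff.1 hopen 0 hmem
  obtain ⟨m, hm⟩ := exists_nat_gt (√2 / ε)
  have hmε : r m < ε := by
    unfold r
    rw [div_lt_iff₀ (by positivity)]
    rw [div_lt_iff₀ hε] at hm
    linarith
  have hpos : (0 : ℝ) < 1 / ((h b m : ℝ) + 1) := by positivity
  have hrlt : r (m + 1) < r m := by
    unfold r
    push_cast
    gcongr
    linarith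
  obtain ⟨q, hq1, hq2⟩ := exists_rat_btwn (x := max (r (m + 1)) (r m - 1 / ((h b m : ℝ) + 1)))
    (y := r m) (max_lt hrlt (by linarith))
  have hq3 : r (m + 1) < q := (le_max_left _ _).trans_lt hq1
  have hq4 : r m - 1 / ((h b m : ℝ) + 1) < q := (le_max_right _ _).trans_lt hq1
  have hq0 : (0 : ℝ) < q := (r_pos _).trans hq3
  have hin : f q ∈ nb h 0 {b} := by
    apply hball
    rw [Metric.mem_ball, Rat.dist_eq]
    simp only [Rat.cast_zero, sub_zero]
    rw [abs_of_pos hq0]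
    linarith
  have hr2 : r m ≤ √2 := by
    rw [← r_zero]; exact r_anti (Nat.zero_le m)
  rcases hfphi q with ⟨h1, -⟩ | h1 | ⟨m', k, a, h1, h2, h3⟩
  · linarith
  · linarith
  · have hk0 : (0 : ℝ) < 1 / ((k : ℝ) + 1) := by positivity
    have hmm : m' = m := by
      rcases lt_trichotomy m' m with hlt | heq | hlt
      · have : r m ≤ r (m' + 1) := r_anti hlt
        linarith
      · exact heq
      · have : r m' ≤ r (m + 1) := r_anti hlt
        linarith
    subst hmm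
    have h5 : 1 / ((k : ℝ) + 1) < 1 / ((h b m' : ℝ) + 1) := by linarith
    rw [one_div_lt_one_div (by positivity) (by positivity)] at h5
    have h6 : h b m' < k := by
      have : (h b m' : ℝ) < k := by linarith
      exact_mod_cast this
    rcases hin with h7 | ⟨m'', k', a', h7, -, h8⟩
    · rw [h1] at h7; simp at h7
    · rw [h1] at h7
      simp only [Option.some.injEq, Prod.mk.injEq] at h7
      obtain ⟨rfl, rfl, rfl⟩ := h7
      exact h8 b (Finset.mem_singleton_self b) ⟨hb a ⟨q, m', k, h1⟩, h6.le⟩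

/-- If the dominating number is aleph_1, some Hausdorff space is strongly L-selective and not
Q-selective; the same holds under CH. -/
theorem result :
    ((∃ g : Om → ℕ → ℕ, ∀ f : ℕ → ℕ, ∃ a, ∀ᶠ n in atTop, f n ≤ g a n) →
      ∃ (X : Type) (_ : TopologicalSpace X), T2Space X ∧
        StronglySelective (OnePoint ℕ) X ∧ ¬ Selective ℚ X) ∧
    (Cardinal.continuum.{0} = Cardinal.aleph 1 →
      ∃ g : Om → ℕ → ℕ, ∀ f : ℕ → ℕ, ∃ a, ∀ᶠ n in atTop, f n ≤ g a n) := by
  constructor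
  · rintro ⟨g, hg⟩
    obtain ⟨h, hh⟩ := exists_scale g
    have hd : ∀ f : ℕ → ℕ, ∃ a, ∀ᶠ n in atTop, f n ≤ h a n := by
      intro f
      obtain ⟨a, ha⟩ := hg f
      refine ⟨a, ?_⟩
      filter_upwards [ha] with n hn
      exact hn.trans ((hh a).2 n)
    exact ⟨Pt, topo h, t2 h, stronglyL h (fun a b hb => (hh a).1 b hb) hd, not_selective h⟩
  · intro hCH
    have h1 : Cardinal.mk (ℕ → ℕ) = Cardinal.mk Om := by
      have h2 : Cardinal.mk Om = Cardinal.aleph 1 := by simp [Om]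
      rw [h2, ← hCH]
      simp
    obtain ⟨e⟩ := Cardinal.eq.1 h1
    exact ⟨fun a => e.symm a, fun f => ⟨e f, Eventually.of_forall (fun n => by simp)⟩⟩

end Pool.Agent.Results.MP_7fd7ea_gt.StronglyLNotQ
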